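import Mathlib
import Pool.Agent.TH876.FH.Def
import Pool.Agent.TH876.FH.DefQ
import Pool.Agent.TH876.FH.Ana
import Pool.Agent.TH876.FH.Hj
import Pool.Agent.TH876.FH.Leg
import Pool.Agent.TH876.FH.CntQ
import Pool.Agent.TH876.FH.Prod
import Pool.Agent.TH876.FH.FinQ

/-!
# Violators of Frey's inequality among the products of elliptic curves with full two-torsion

Frey's inequality says that `h_F(A) ≤ (n / 2 + ε) log N_A + c` for all abelian varieties `A` over
`ℚ` of dimension `n`. We count the violators `A = E₁ × ⋯ × E_n` where the `E_i` are elliptic curves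
over `ℚ` with full rational two-torsion.
-/

set_option autoImplicit false

namespace Pool.Agent.Results.MP_c59389_nt.FreyViolatorsProducts

open NumberField IsDedekindDomain

/-- the modular invariant `j(τ) = E₄(τ) ^ 3 / Δ(τ) = 1 / q + 744 + ⋯` -/
noncomputable def jInv (τ : UpperHalfPlane) : ℂ :=
  ModularForm.E₄ τ ^ 3 / ModularForm.discriminant τ

/-- the archimedean term `- log (|Δ(τ)| (Im τ) ^ 6)` of the Faltings height -/
noncomputable def arch (τ : UpperHalfPlane) : ℝ :=
  -Real.log (‖ModularForm.discriminant τ‖ * τ.im ^ 6)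

/-- Silverman's formula for the stable Faltings height (up to an additive constant which depends on
the normalisation of the metric only) of an elliptic curve with modular invariant `j ∈ K`, where
`τ w` is a point of the upper half plane with modular invariant `j` at the infinite place `w`:
`12 [K : ℚ] h_F = ∑_v log max(|j|_v, 1) + ∑_w [K_w : ℝ] arch (τ w)`. -/
noncomputable def faltings {K : Type} [Field K] [NumberField K] (j : K)
    (τ : InfinitePlace K → UpperHalfPlane) : ℝ :=
  (∑ᶠ v : HeightOneSpectrum (𝓞 K), Real.log (max (FinitePlace.mk v j) 1) +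
    ∑ w : InfinitePlace K, (w.mult : ℝ) * arch (τ w)) / (12 * Module.finrank ℚ K)

/-- the points `τ w` have modular invariant `j` -/
def IsPeriod {K : Type} [Field K] [NumberField K] (j : K)
    (τ : InfinitePlace K → UpperHalfPlane) : Prop := ∀ w, jInv (τ w) = w.embedding j

/-- full rational two-torsion: the cubic `4 x ^ 3 + b₂ x ^ 2 + 2 b₄ x + b₆` has three zeros in
`K` -/
def FullTwo {K : Type} [Field K] (E : WeierstrassCurve K) : Prop :=
  ∃ e : Fin 3 → K, Function.Injective e ∧
    ∀ i, 4 * e i ^ 3 + E.b₂ * e i ^ 2 + 2 * E.b₄ * e i + E.b₆ = 0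

/-- good reduction at `v`: some Weierstrass equation over `K` of the curve is integral at `v` and
has a discriminant which is a unit at `v` -/
def GoodAt {K : Type} [Field K] [NumberField K] (v : HeightOneSpectrum (𝓞 K))
    (E : WeierstrassCurve K) : Prop :=
  ∃ C : WeierstrassCurve.VariableChange K,
    v.valuation K (C • E).a₁ ≤ 1 ∧ v.valuation K (C • E).a₂ ≤ 1 ∧ v.valuation K (C • E).a₃ ≤ 1 ∧
    v.valuation K (C • E).a₄ ≤ 1 ∧ v.valuation K (C • E).a₆ ≤ 1 ∧ v.valuation K (C • E).Δ = 1

/-- the product of the norms of the primes of bad reduction; it divides the norm of the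
conductor -/
noncomputable def badNorm {K : Type} [Field K] [NumberField K] (E : WeierstrassCurve K) : ℝ :=
  ∏ᶠ v ∈ {v : HeightOneSpectrum (𝓞 K) | ¬ GoodAt v E}, (Ideal.absNorm v.asIdeal : ℝ)

/-- the `n`-tuples of modular invariants of the products `A` of `n` elliptic curves over `ℚ` with
full rational two-torsion, `h_F(A) ≤ log B` and `κ log R + c < h_F(A)`, where `R` is the product of
the bad primes of the factors -/
def Violators (n : ℕ) (κ c B : ℝ) : Set (Fin n → ℚ) :=
  {j | ∃ (E : Fin n → WeierstrassCurve ℚ) (τ : Fin n → InfinitePlace ℚ → UpperHalfPlane),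
    (∀ i, (E i).Δ ≠ 0 ∧ FullTwo (E i) ∧ (E i).c₄ ^ 3 / (E i).Δ = j i ∧ IsPeriod (j i) (τ i)) ∧
    ∑ i, faltings (j i) (τ i) ≤ Real.log B ∧
    κ * Real.log (∏ i, badNorm (E i)) + c < ∑ i, faltings (j i) (τ i)}

/-- Let `n` be a natural number, `κ, δ > 0` and `c` real. For all `B ≥ 1` at most
`C B ^ (2 / (3 κ) + δ)` products `A` of `n` elliptic curves over `ℚ` with full rational two-torsion
(up to isomorphism of the factors over `ℂ`) of stable Faltings height at most `log B` violate
`h_F(A) ≤ κ log N_A + c`. -/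
theorem result (n : ℕ) (κ c δ : ℝ) (hκ : 0 < κ) (hδ : 0 < δ) :
    ∃ C : ℝ, ∀ B : ℝ, 1 ≤ B → (Violators n κ c B).Finite ∧
      ((Violators n κ c B).ncard : ℝ) ≤ C * B ^ (2 / (3 * κ) + δ) :=
  Pool.Agent.TH876.FH.mainQ (Pool.Agent.TH876.FH.hj Pool.Agent.TH876.FH.ana)
    Pool.Agent.TH876.FH.leg Pool.Agent.TH876.FH.cntQ Pool.Agent.TH876.FH.prod n κ c δ hκ hδ

end Pool.Agent.Results.MP_c59389_nt.FreyViolatorsProducts
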