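import Mathlib
import Pool.Agent.TH876.FH.Ana
import Pool.Agent.TH876.FH.Hj
import Pool.Agent.TH876.TM.Ext
import Pool.Agent.TH876.TM.Local
import Pool.Agent.TH876.TM.Glob
import Pool.Agent.TH876.TM.Scale
import Pool.Agent.TH876.TM.Count
import Pool.Agent.TH876.TM.Pole
import Pool.Agent.TH876.TM.Val
import Pool.Agent.TH876.TM.Meet
import Pool.Agent.TH876.TM.Good
import Pool.Agent.TH876.TM.Pencil

/-!
# Violators of Frey's inequality in pencils of elliptic curves

Frey's inequality says that `h_F(A) ≤ (n / 2 + ε) log N_A + c` for all abelian varieties `A` over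
`ℚ` of dimension `n`. We count its violators (with any coefficient `κ` instead of `n / 2 + ε`) among
the members of a pencil of elliptic curves over a number field whose modular invariant
`P(t) / Q(t)` has at least three different poles.
-/

set_option autoImplicit false

namespace Pool.Agent.Results.MP_c59389_nt.PencilViolators

open NumberField IsDedekindDomain Polynomial

/-- the modular invariant `j(τ) = E₄(τ) ^ 3 / Δ(τ) = 1 / q + 744 + ⋯` -/
noncomputable def jInv (τ : UpperHalfPlane) : ℂ :=
  ModularForm.E₄ τ ^ 3 / ModularForm.discriminant τ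

/-- the archimedean term `- log (|Δ(τ)| (Im τ) ^ 6)` of the Faltings height -/
noncomputable def arch (τ : UpperHalfPlane) : ℝ :=
  -Real.log (‖ModularForm.discriminant τ‖ * τ.im ^ 6)

/-- Silverman's formula for the stable Faltings height (up to an additive constant which depends on
the normalisation of the metric only) of an elliptic curve with modular invariant `j ∈ K`, where
`τ w` is a point of the upper half plane with modular invariant `j` at the infinite place `w`:
`12 [K : ℚ] h_F = ∑_v log max(|j|_v, 1) + ∑_w [K_w : ℝ] arch (τ w)`. -/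
noncomputable def faltings {K : Type} [Field K] [NumberField K] (j : K)
    (τ : InfinitePlace K → UpperHalfPlane) : ℝ :=
  (∑ᶠ v : HeightOneSpectrum (𝓞 K), Real.log (max (FinitePlace.mk v j) 1) +
    ∑ w : InfinitePlace K, (w.mult : ℝ) * arch (τ w)) / (12 * Module.finrank ℚ K)

/-- the points `τ w` have modular invariant `j` -/
def IsPeriod {K : Type} [Field K] [NumberField K] (j : K)
    (τ : InfinitePlace K → UpperHalfPlane) : Prop := ∀ w, jInv (τ w) = w.embedding j

/-- good reduction at `v`: some Weierstrass equation over `K` of the curve is integral at `v` and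
has a discriminant which is a unit at `v` -/
def GoodAt {K : Type} [Field K] [NumberField K] (v : HeightOneSpectrum (𝓞 K))
    (E : WeierstrassCurve K) : Prop :=
  ∃ C : WeierstrassCurve.VariableChange K,
    v.valuation K (C • E).a₁ ≤ 1 ∧ v.valuation K (C • E).a₂ ≤ 1 ∧ v.valuation K (C • E).a₃ ≤ 1 ∧
    v.valuation K (C • E).a₄ ≤ 1 ∧ v.valuation K (C • E).a₆ ≤ 1 ∧ v.valuation K (C • E).Δ = 1

/-- the product of the norms of the primes of bad reduction; it divides the norm of the
conductor -/
noncomputable def badNorm {K : Type} [Field K] [NumberField K] (E : WeierstrassCurve K) : ℝ :=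
  ∏ᶠ v ∈ {v : HeightOneSpectrum (𝓞 K) | ¬ GoodAt v E}, (Ideal.absNorm v.asIdeal : ℝ)

open Classical in
/-- the number of the different poles (in the projective line over an algebraic closure) of the
rational function `P / Q`, where `P` and `Q` are coprime -/
noncomputable def poles {K : Type} [Field K] (P Q : Polynomial K) : ℕ :=
  (Q.map (algebraMap K (AlgebraicClosure K))).roots.toFinset.card +
    if Q.natDegree < P.natDegree then 1 else 0

/-- the parameters `t` for which some elliptic curve `E` with modular invariant `P(t) / Q(t)` has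
bad primes of norm at most `y` only, `h_F(E) ≤ log B` and `κ log R + c < h_F(E)`, where `R` is the
product of the norms of the bad primes of `E` -/
def Violators (K : Type) [Field K] [NumberField K] (P Q : K[X]) (κ c y B : ℝ) : Set K :=
  {t | Q.eval t ≠ 0 ∧ ∃ (E : WeierstrassCurve K) (τ : InfinitePlace K → UpperHalfPlane),
    E.Δ ≠ 0 ∧ E.c₄ ^ 3 / E.Δ = P.eval t / Q.eval t ∧ IsPeriod (P.eval t / Q.eval t) τ ∧
    (∀ v, ¬ GoodAt v E → (Ideal.absNorm v.asIdeal : ℝ) ≤ y) ∧
    faltings (P.eval t / Q.eval t) τ ≤ Real.log B ∧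
    κ * Real.log (badNorm E) + c < faltings (P.eval t / Q.eval t) τ}

/-- Let `K` be a number field, `P, Q ∈ K[t]` coprime such that `P / Q` has `q ≥ 3` different poles,
`κ, δ > 0` and `c` real. For all `y, B ≥ 1` there are at most `C y B ^ (2 / (q κ) + δ)` parameters
`t ∈ K` for which some elliptic curve `E` over `K` with modular invariant `P(t) / Q(t)`, with bad
primes of norm at most `y` only and with `h_F(E) ≤ log B` violates `h_F(E) ≤ κ log R + c`. -/
theorem result (K : Type) [Field K] [NumberField K] (P Q : K[X]) (hPQ : IsCoprime P Q)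
    (hQ : Q ≠ 0) (hp : 3 ≤ poles P Q) (κ c δ : ℝ) (hκ : 0 < κ) (hδ : 0 < δ) :
    ∃ C : ℝ, ∀ y B : ℝ, 1 ≤ y → 1 ≤ B → (Violators K P Q κ c y B).Finite ∧
      ((Violators K P Q κ c y B).ncard : ℝ) ≤
        C * y * B ^ (2 / ((poles P Q : ℝ) * κ) + δ) :=
  Pool.Agent.TH876.TM.pencilViol (Pool.Agent.TH876.TM.pencil (fun K _ _ => Pool.Agent.TH876.TM.count K
    (Pool.Agent.TH876.TM.local_sys K (Pool.Agent.TH876.TM.ext K)) (Pool.Agent.TH876.TM.glob K)
    (Pool.Agent.TH876.TM.scale K (Pool.Agent.TH876.TM.glob K)))
    (Pool.Agent.TH876.FH.hj Pool.Agent.TH876.FH.ana) Pool.Agent.TH876.TM.pole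
    Pool.Agent.TH876.TM.val Pool.Agent.TH876.TM.meet Pool.Agent.TH876.TM.good) K P Q hPQ hQ hp κ c δ hκ hδ

end Pool.Agent.Results.MP_c59389_nt.PencilViolators
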